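import Mathlib

/-!
The basic semidefinite constraint for pseudo-sets of vertices.
-/

set_option autoImplicit false

open Finset

namespace Pool.Agent.Lib.MP_8d8c46_lc.SDP

/-- The basic semidefinite constraint on the pseudo-probabilities `X T` that the set contains `T`:
the moment matrix of `1` and the indicators of the vertices is positive semidefinite. -/
def BasicSDP {V : Type*} [Fintype V] [DecidableEq V] (X : Finset V → ℝ) : Prop :=
  ∀ (c₀ : ℝ) (c : V → ℝ),
    0 ≤ c₀ ^ 2 + 2 * c₀ * ∑ v, c v * X {v} + ∑ u, ∑ v, c u * c v * X {u, v}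

end Pool.Agent.Lib.MP_8d8c46_lc.SDP
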